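import Pool.Agent.W200.MR.Stm

set_option autoImplicit false

open Finset Filter Topology MeasureTheory

namespace Pool.Agent.W274.MR

open Pool.Agent.W200.MR

noncomputable def K (s : ℝ) (n : ℕ) : ℕ := ⌊s * Real.log n / Real.pi + 1 / 2⌋₊

theorem pw_re (s : ℝ) (n : ℕ) : (pw s n).re = Real.cos (s * Real.log n) := by
  unfold pw
  rw [Complex.exp_ofReal_mul_I_re]

theorem th_nonneg (s : ℝ) (hs : 1 ≤ s) (n : ℕ) : 0 ≤ s * Real.log n :=
  mul_nonneg (by linarith) (Real.log_natCast_nonneg n)

theorem th_mono (s : ℝ) (hs : 1 ≤ s) {m n : ℕ} (hm : 1 ≤ m) (h : m < n) :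
    s * Real.log m < s * Real.log n := by
  apply mul_lt_mul_of_pos_left _ (by linarith)
  apply Real.log_lt_log (by exact_mod_cast hm)
  exact_mod_cast h

theorem K_mono (s : ℝ) (hs : 1 ≤ s) {m n : ℕ} (hm : 1 ≤ m) (h : m ≤ n) : K s m ≤ K s n := by
  unfold K
  apply Nat.floor_le_floor
  rcases h.eq_or_lt with h | h
  · rw [h]
  · have := (th_mono s hs hm h).le
    have hp := Real.pi_pos
    gcongr

theorem K_bounds (s : ℝ) (hs : 1 ≤ s) (n : ℕ) :
    Real.pi * K s n - Real.pi / 2 ≤ s * Real.log n ∧
      s * Real.log n < Real.pi * K s n + Real.pi / 2 := by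
  have hp := Real.pi_pos
  have h0 := th_nonneg s hs n
  have h1 : (K s n : ℝ) ≤ s * Real.log n / Real.pi + 1 / 2 := Nat.floor_le (by positivity)
  have h2 : s * Real.log n / Real.pi + 1 / 2 < K s n + 1 := Nat.lt_floor_add_one _
  have e : s * Real.log n = Real.pi * (s * Real.log n / Real.pi) := by field_simp
  constructor
  · rw [e]; nlinarith
  · rw [e]; nlinarith

theorem sign_aux (x : ℝ) (k : ℕ) (h1 : Real.pi * k - Real.pi / 2 < x)
    (h2 : x < Real.pi * k + Real.pi / 2) : 0 < (-1 : ℝ) ^ k * Real.cos x := by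
  rw [← Real.cos_sub_nat_mul_pi]
  apply Real.cos_pos_of_mem_Ioo
  constructor <;> linarith

theorem sign_same (x y : ℝ) (k : ℕ) (h1 : Real.pi * k - Real.pi / 2 < x)
    (h2 : x < Real.pi * k + Real.pi / 2) (h3 : Real.pi * k - Real.pi / 2 < y)
    (h4 : y < Real.pi * k + Real.pi / 2) : (Real.cos x < 0 ↔ Real.cos y < 0) := by
  have a := sign_aux x k h1 h2
  have b := sign_aux y k h3 h4
  rcases neg_one_pow_eq_or ℝ k with h | h
  · rw [h] at a b
    constructor <;> intro h <;> linarith
  · rw [h] at a b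
    constructor <;> intro h <;> linarith

theorem t_EPa : S_EPa := by
  classical
  intro s N hs
  let A1 := (Icc 1 N).filter (fun n : ℕ => K s n < K s (n + 1))
  let A2 := (Icc 1 N).filter (fun n : ℕ => s * Real.log n = Real.pi * K s n - Real.pi / 2)
  have hsub : (Icc 1 N).filter (fun n => ¬ ((pw s n).re < 0 ↔ (pw s (n + 1)).re < 0)) ⊆
      A1 ∪ A2 := by
    intro n hn
    rw [mem_filter] at hn
    obtain ⟨hn1, hn2⟩ := hn
    by_contra hcon
    rw [mem_union, not_or] at hcon
    simp only [A1, A2, mem_filter, not_and] at hcon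
    have c1 := hcon.1 hn1
    have c2 := hcon.2 hn1
    rw [mem_Icc] at hn1
    have hK : K s n = K s (n + 1) := le_antisymm (K_mono s hs hn1.1 (Nat.le_succ n)) (not_lt.1 c1)
    have b1 := K_bounds s hs n
    have b2 := K_bounds s hs (n + 1)
    have b3 := th_mono s hs hn1.1 (Nat.lt_succ_self n)
    have b4 : Real.pi * K s n - Real.pi / 2 < s * Real.log n := lt_of_le_of_ne b1.1 (Ne.symm c2)
    apply hn2
    rw [pw_re, pw_re]
    apply sign_same _ _ (K s n) b4 b1.2 (b4.trans b3)
    rw [hK]
    exact b2.2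
  have h1 : A1.card ≤ K s (N + 1) + 1 := by
    have hinj : Set.InjOn (fun n => K s (n + 1)) (A1 : Set ℕ) := by
      have key : ∀ m ∈ A1, ∀ n ∈ A1, m < n → K s (m + 1) < K s (n + 1) := by
        intro m hm n hn hmn
        exact (K_mono s hs (by omega) hmn).trans_lt (mem_filter.1 hn).2
      intro m hm n hn h
      simp only at h
      rcases lt_trichotomy m n with h' | h' | h'
      · have := key m hm n hn h'
        omega
      · exact h'
      · have := key n hn m hm h'
        omega
    have := card_le_card_of_injOn (t := range (K s (N + 1) + 1)) (fun n => K s (n + 1)) (by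
      intro n hn
      have hn' := mem_Icc.1 (mem_filter.1 (mem_coe.1 hn)).1
      rw [mem_coe, mem_range]
      have := K_mono s hs (m := n + 1) (n := N + 1) (by omega) (by omega)
      simp only
      omega) hinj
    simpa using this
  have h2 : A2.card ≤ K s (N + 1) + 1 := by
    have hinj : Set.InjOn (fun n => K s n) (A2 : Set ℕ) := by
      intro m hm n hn h
      simp only at h
      have hm1 := mem_filter.1 (mem_coe.1 hm)
      have hn1 := mem_filter.1 (mem_coe.1 hn)
      have e : s * Real.log m = s * Real.log n := by rw [hm1.2, hn1.2, h]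
      rcases lt_trichotomy m n with h' | h' | h'
      · have := th_mono s hs (mem_Icc.1 hm1.1).1 h'
        linarith
      · exact h'
      · have := th_mono s hs (mem_Icc.1 hn1.1).1 h'
        linarith
    have := card_le_card_of_injOn (t := range (K s (N + 1) + 1)) (fun n => K s n) (by
      intro n hn
      have hn' := mem_Icc.1 (mem_filter.1 (mem_coe.1 hn)).1
      rw [mem_coe, mem_range]
      have := K_mono s hs (m := n) (n := N + 1) (by omega) (by omega)
      simp only
      omega) hinj
    simpa using this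
  have h3 := (card_le_card hsub).trans (card_union_le A1 A2)
  have h4 : (((Icc 1 N).filter (fun n => ¬ ((pw s n).re < 0 ↔ (pw s (n + 1)).re < 0))).card : ℝ) ≤
      2 * K s (N + 1) + 2 := by
    have : ((Icc 1 N).filter (fun n => ¬ ((pw s n).re < 0 ↔ (pw s (n + 1)).re < 0))).card ≤
        2 * K s (N + 1) + 2 := by omega
    exact_mod_cast this
  have hp := Real.pi_pos
  have hp3 := Real.pi_gt_three
  have h5 : (K s (N + 1) : ℝ) ≤ s * Real.log ((N + 1 : ℕ) : ℝ) / Real.pi + 1 / 2 :=
    Nat.floor_le (by have := th_nonneg s hs (N + 1); positivity)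
  have h6 : s * Real.log ((N + 1 : ℕ) : ℝ) / Real.pi ≤ s * Real.log ((N + 1 : ℕ) : ℝ) := by
    apply div_le_self (th_nonneg s hs (N + 1))
    linarith
  have h7 := th_nonneg s hs (N + 1)
  push_cast at h5 h6 h7 ⊢
  linarith

end Pool.Agent.W274.MR
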